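import Pool.Agent.K7.H36.RP.Final

/-!
# An extremal convex nonagon which is not regular

The self Chebyshev radius of the boundary of a convex polygon, and the convex `n`-gons of the smallest perimeter for the given value of
this radius. For `n = 9` not every extremal convex `n`-gon is regular. (The polygon with a ratio not larger than that of the regular
nonagon is the Reinhardt polygon whose vertices are the three vertices of a Reuleaux triangle and the six points which divide its arcs
into three equal parts; the existence of an extremal nonagon is proved, too.)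
-/

set_option autoImplicit false

namespace Pool.Agent.Results.MP_27c08e_co.NonRegularNonagon

/-- The points `v 0, ..., v (n - 1)` are the vertices of a convex `n`-gon, in the counterclockwise order: all triples
`v i, v j, v k`, `i < j < k`, are positively oriented. -/
def IsConvexPolygon {n : ℕ} (v : Fin n → ℂ) : Prop :=
  3 ≤ n ∧ ∀ i j k : Fin n, i < j → j < k →
    0 < (v j - v i).re * (v k - v i).im - (v j - v i).im * (v k - v i).re

/-- The boundary of the polygon: the union of the segments from `v i` to the next vertex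
(`finRotate n i` is `i + 1` for `i < n - 1`, and `0` for `i = n - 1`). -/
def boundary {n : ℕ} (v : Fin n → ℂ) : Set ℂ := ⋃ i : Fin n, segment ℝ (v i) (v (finRotate n i))

/-- The perimeter of the polygon. -/
noncomputable def perimeter {n : ℕ} (v : Fin n → ℂ) : ℝ := ∑ i : Fin n, dist (v i) (v (finRotate n i))

/-- The self Chebyshev radius of a set `M` of the plane. -/
noncomputable def selfRadius (M : Set ℂ) : ℝ := ⨅ x : M, ⨆ y : M, dist (x : ℂ) (y : ℂ)

/-- The ratio of the perimeter and the self Chebyshev radius of the boundary. -/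
noncomputable def ratio {n : ℕ} (v : Fin n → ℂ) : ℝ := perimeter v / selfRadius (boundary v)

/-- Extremal convex `n`-gons. -/
def IsExtremal {n : ℕ} (v : Fin n → ℂ) : Prop :=
  IsConvexPolygon v ∧ ∀ w : Fin n → ℂ, IsConvexPolygon w → ratio v ≤ ratio w

/-- The points `v 0, ..., v (n - 1)` are, in some order, the vertices of a regular `n`-gon (with the centre `o`). -/
def IsRegular {n : ℕ} (v : Fin n → ℂ) : Prop :=
  ∃ o a : ℂ, Set.range v =
    Set.range fun k : Fin n => o + a * Complex.exp (2 * Real.pi * Complex.I * (k : ℕ) / (n : ℕ))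

/-- There is an extremal convex `9`-gon which is not regular. (The self Chebyshev radius of the boundary of every convex `9`-gon is
positive.) -/
theorem result : (∃ v : Fin 9 → ℂ, IsExtremal v ∧ ¬ IsRegular v) ∧
    ∀ w : Fin 9 → ℂ, IsConvexPolygon w → 0 < selfRadius (boundary w) := by
  have hper : ∀ w : Fin 9 → ℂ, perimeter w = Pool.Agent.K7.H36.RP.Lg w (finRotate 9) := by
    intro w
    unfold perimeter Pool.Agent.K7.H36.RP.Lg
    refine Finset.sum_congr rfl fun i _ => ?_
    rw [dist_eq_norm, norm_sub_rev]
  have hrat : ∀ w : Fin 9 → ℂ, ratio w = Pool.Agent.K7.H36.RP.Lg w (finRotate 9) /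
      Pool.Agent.K7.H36.RP.selfR (Pool.Agent.K7.H36.RP.bdry w (finRotate 9)) := by
    intro w
    unfold ratio
    rw [hper]
    rfl
  refine ⟨?_, fun w hw => ?_⟩
  · obtain ⟨v, hv, hreg, hmin⟩ := Pool.Agent.K7.H36.RP.final
    refine ⟨v, ⟨⟨by norm_num, hv⟩, fun w hw => ?_⟩, fun hr => hreg ?_⟩
    · rw [hrat, hrat]
      exact hmin w hw.2
    · obtain ⟨o, a, h⟩ := hr
      refine ⟨o, a, fun i => ?_⟩
      have hi : v i ∈ Set.range v := ⟨i, rfl⟩
      rw [h] at hi
      obtain ⟨k, hk⟩ := hi
      refine ⟨k, ?_⟩
      rw [← hk]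
      unfold Pool.Agent.K7.H36.RP.zk
      norm_num
  · have hE := Pool.Agent.K7.H36.RP.EC_of_triples (w := w) hw.2
    exact Pool.Agent.K7.H36.RP.selfR_pos (σ := finRotate 9)
      (sub_ne_zero.1 (Pool.Agent.K7.H36.RP.ne_of_EC hE Pool.Agent.K7.H36.RP.rot_ne
        Pool.Agent.K7.H36.RP.rot_ne2 0))

end Pool.Agent.Results.MP_27c08e_co.NonRegularNonagon
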